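import Mathlib

namespace Pool.Agent.Results.MP_c699aa_gt.Full

open Set Filter Topology MeasureTheory Metric
open scoped RealInnerProductSpace ENNReal

abbrev E (n : ℕ) := EuclideanSpace ℝ (Fin n)

variable {n : ℕ}

/-- Length of the section of `A` by the line through `x` in direction `u`. -/
noncomputable def len (u : E n) (A : Set (E n)) (x : E n) : ℝ≥0∞ :=
  volume {t : ℝ | x + t • u ∈ A}

/-- Steiner symmetrization in direction `u`. -/
def S (u : E n) (A : Set (E n)) : Set (E n) :=
  {x | ∃ (x' : E n) (t : ℝ), ⟪x', u⟫ = 0 ∧ (∃ s : ℝ, x' + s • u ∈ A) ∧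
    ENNReal.ofReal |t| ≤ len u A x' / 2 ∧ x = x' + t • u}

/-- Iterated symmetrizations `S (u (i-1)) ⋯ S (u 0) A`. -/
def iter (u : ℕ → E n) (A : Set (E n)) : ℕ → Set (E n)
  | 0 => A
  | i + 1 => S (u i) (iter u A i)

lemma len_mono (u : E n) {A B : Set (E n)} (h : A ⊆ B) (x : E n) : len u A x ≤ len u B x :=
  measure_mono fun _ ht => h ht

lemma len_add (u : E n) (A : Set (E n)) (x : E n) (c : ℝ) : len u A (x + c • u) = len u A x := by
  unfold len
  rw [← measure_preimage_add volume c {t : ℝ | x + t • u ∈ A}]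
  congr 1
  ext t
  simp [add_smul, add_assoc]

lemma len_meas (u : E n) {A : Set (E n)} (hA : MeasurableSet A) : Measurable (len u A) :=
  measurable_measure_prodMk_left (s := {p : E n × ℝ | p.1 + p.2 • u ∈ A})
    (hA.preimage (by fun_prop))

lemma S_ball {u : E n} (hu : ‖u‖ = 1) {A : Set (E n)} {R : ℝ} (hR : 0 ≤ R)
    (h : A ⊆ closedBall 0 R) : S u A ⊆ closedBall 0 R := by
  rintro _ ⟨x, t, hx, ⟨s, hs⟩, ht, rfl⟩
  have nn : ∀ s : ℝ, ‖x + s • u‖ ^ 2 = ‖x‖ ^ 2 + s ^ 2 := fun s => by
    rw [norm_add_sq_real, inner_smul_right, hx, norm_smul, hu]; simp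
  have mem : ∀ s : ℝ, x + s • u ∈ closedBall (0 : E n) R ↔ s ^ 2 ≤ R ^ 2 - ‖x‖ ^ 2 := fun s => by
    rw [mem_closedBall_zero_iff, ← pow_le_pow_iff_left₀ (norm_nonneg _) hR two_ne_zero, nn]
    constructor <;> intro <;> linarith
  have h0 : 0 ≤ R ^ 2 - ‖x‖ ^ 2 := (sq_nonneg s).trans ((mem s).1 (h hs))
  have h1 : len u A x ≤ ENNReal.ofReal (2 * √(R ^ 2 - ‖x‖ ^ 2)) := by
    refine (measure_mono (t := Icc (-√(R ^ 2 - ‖x‖ ^ 2)) (√(R ^ 2 - ‖x‖ ^ 2))) ?_).trans ?_
    · intro s hs
      exact abs_le.1 (Real.abs_le_sqrt ((mem s).1 (h hs)))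
    · rw [Real.volume_Icc]; apply le_of_eq; congr 1; ring
  have h2 : ENNReal.ofReal |t| ≤ ENNReal.ofReal √(R ^ 2 - ‖x‖ ^ 2) := by
    refine ht.trans (ENNReal.div_le_of_le_mul' (h1.trans_eq ?_))
    rw [ENNReal.ofReal_mul (by norm_num)]; simp
  rw [ENNReal.ofReal_le_ofReal_iff (Real.sqrt_nonneg _)] at h2
  rw [mem, ← sq_abs]
  exact (Real.le_sqrt (abs_nonneg _) h0).1 h2

def S' (u : E n) (A : Set (E n)) : Set (E n) := {x | ENNReal.ofReal |⟪x, u⟫| < len u A x / 2}

lemma S'_meas (u : E n) {A : Set (E n)} (hA : MeasurableSet A) : MeasurableSet (S' u A) :=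
  measurableSet_lt (by fun_prop) ((len_meas u hA).div_const 2)

lemma S'_sub {u : E n} (hu : ‖u‖ = 1) {A B : Set (E n)} (h : A ⊆ B) : S' u A ⊆ S u B := by
  intro x hx
  have e : len u A (x + (-⟪x, u⟫) • u) = len u A x := len_add _ _ _ _
  refine ⟨x + (-⟪x, u⟫) • u, ⟪x, u⟫, ?_, ?_, ?_, by simp⟩
  · rw [inner_add_left, inner_smul_left, real_inner_self_eq_norm_sq, hu]; simp
  · have : len u A (x + (-⟪x, u⟫) • u) ≠ 0 := by
      rw [e]; intro h0
      simp [S', h0] at hx
    obtain ⟨s, hs⟩ := nonempty_of_measure_ne_zero this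
    exact ⟨s, h hs⟩
  · refine (le_of_lt hx).trans ?_
    rw [← e]
    exact ENNReal.div_le_div_right (len_mono u h _) 2

lemma vol_eq {u : E n} (hu : ‖u‖ = 1) {A : Set (E n)} (hA : MeasurableSet A) :
    volume A = ∫⁻ x, {y : E n | ⟪y, u⟫ ∈ Ico (0 : ℝ) 1}.indicator 1 x * len u A x := by
  set L := {y : E n | ⟪y, u⟫ ∈ Ico (0 : ℝ) 1}
  have hL : MeasurableSet L := measurableSet_Ico.preimage (by fun_prop)
  have m1 : Measurable (L.indicator (1 : E n → ℝ≥0∞)) := measurable_one.indicator hL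
  have m2 : Measurable (A.indicator (1 : E n → ℝ≥0∞)) := measurable_one.indicator hA
  have e1 : ∀ x, L.indicator 1 x * len u A x =
      ∫⁻ s : ℝ, L.indicator 1 x * A.indicator (1 : E n → ℝ≥0∞) (x + s • u) := by
    intro x
    rw [lintegral_const_mul _ (by fun_prop), len,
      ← lintegral_indicator_one (s := {t : ℝ | x + t • u ∈ A}) (hA.preimage (by fun_prop))]
    rfl
  have e2 : ∀ s : ℝ, ∫⁻ x, L.indicator 1 x * A.indicator (1 : E n → ℝ≥0∞) (x + s • u) =
      ∫⁻ y, L.indicator 1 (y - s • u) * A.indicator (1 : E n → ℝ≥0∞) y := by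
    intro s
    rw [← lintegral_add_right_eq_self
      (fun y => L.indicator 1 (y - s • u) * A.indicator (1 : E n → ℝ≥0∞) y) (s • u)]
    simp
  have e3 : ∀ y, ∫⁻ s : ℝ, L.indicator 1 (y - s • u) * A.indicator (1 : E n → ℝ≥0∞) y =
      A.indicator 1 y := by
    intro y
    rw [lintegral_mul_const _ (by fun_prop)]
    have : (fun s : ℝ => L.indicator (1 : E n → ℝ≥0∞) (y - s • u)) =
        (Ioc (⟪y, u⟫ - 1) ⟪y, u⟫).indicator 1 := by
      funext s
      have : y - s • u ∈ L ↔ s ∈ Ioc (⟪y, u⟫ - 1) ⟪y, u⟫ := by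
        simp only [L, mem_ofPred_eq, inner_sub_left, inner_smul_left, real_inner_self_eq_norm_sq,
          hu, mem_Ico, mem_Ioc, conj_trivial]
        constructor <;> rintro ⟨h1, h2⟩ <;> constructor <;> linarith
      by_cases h : y - s • u ∈ L
      · simp [h, this.1 h]
      · rw [indicator_of_notMem h, indicator_of_notMem (this.not.1 h)]
    rw [this, lintegral_indicator_one measurableSet_Ioc]
    simp
  simp_rw [e1]
  rw [lintegral_lintegral_swap (Measurable.aemeasurable (by fun_prop))]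
  simp_rw [e2]
  rw [lintegral_lintegral_swap (Measurable.aemeasurable (by fun_prop))]
  simp_rw [e3]
  rw [lintegral_indicator_one hA]

lemma len_S' {u : E n} (hu : ‖u‖ = 1) (A : Set (E n)) (x : E n) :
    len u A x ≤ len u (S' u A) x := by
  have : {t : ℝ | x + t • u ∈ S' u A} =
      (fun t => ⟪x, u⟫ + t) ⁻¹' {t | ENNReal.ofReal |t| < len u A x / 2} := by
    ext t
    simp only [S', mem_ofPred_eq, len_add, inner_add_left, inner_smul_left,
      real_inner_self_eq_norm_sq, hu, mem_preimage]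
    simp
  conv_rhs => rw [len, this, measure_preimage_add]
  generalize len u A x = a
  induction a with
  | top => simp [ENNReal.top_div_of_ne_top]
  | coe a =>
    have : {t : ℝ | ENNReal.ofReal |t| < (a : ℝ≥0∞) / 2} = Ioo (-(a / 2 : ℝ)) (a / 2) := by
      ext t
      rw [mem_ofPred_eq, mem_Ioo, ← abs_lt, ← ENNReal.ofReal_lt_ofReal_iff_of_nonneg (abs_nonneg t),
        ENNReal.ofReal_div_of_pos (by norm_num)]
      simp
    rw [this, Real.volume_Ioo]
    simp

lemma vol_iter {u : ℕ → E n} (hu : ∀ i, ‖u i‖ = 1) {A : Set (E n)} (hA : MeasurableSet A)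
    (i : ℕ) : ∃ B ⊆ iter u A i, MeasurableSet B ∧ volume A ≤ volume B := by
  induction i with
  | zero => exact ⟨A, subset_rfl, hA, le_rfl⟩
  | succ i ih =>
    obtain ⟨B, h1, h2, h3⟩ := ih
    refine ⟨S' (u i) B, S'_sub (hu i) h1, S'_meas _ h2, h3.trans ?_⟩
    rw [vol_eq (hu i) h2, vol_eq (hu i) (S'_meas _ h2)]
    exact lintegral_mono fun x => mul_le_mul_right (len_S' (hu i) B x) _

theorem result (n : ℕ) (A : Set (E n)) (hA : IsCompact A) (hint : (interior A).Nonempty)
    (u : ℕ → E n) (hu : ∀ i, ‖u i‖ = 1) (r : ℝ)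
    (hr : volume (closedBall (0 : E n) r) = volume A) (φ : ℕ → ℕ) (_hφ : StrictMono φ)
    (h : Tendsto (fun j => hausdorffEDist (iter u A (φ j)) (closedBall 0 r)) atTop (𝓝 0)) :
    Tendsto (fun i => hausdorffEDist (iter u A i) (closedBall 0 r)) atTop (𝓝 0) := by
  have hnt : Nontrivial (E n) := ⟨u 0, 0, by intro e; simpa [e] using hu 0⟩
  have hpos : 0 < volume A := Measure.measure_pos_of_nonempty_interior _ hint
  have hr0 : 0 < r := by
    by_contra hh
    have : closedBall (0 : E n) r ⊆ {0} := fun x hx => by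
      simpa using (mem_closedBall_zero_iff.1 hx).trans (not_lt.1 hh)
    have := (measure_mono this).trans_eq (measure_singleton (μ := volume) (0 : E n))
    rw [hr] at this
    exact absurd hpos (not_lt.2 this)
  rw [ENNReal.tendsto_nhds_zero]
  intro ε hε
  obtain ⟨δ, hδ, hδε, hδr⟩ : ∃ δ : ℝ, 0 < δ ∧ ENNReal.ofReal (2 * δ) ≤ ε ∧ δ ≤ r := by
    obtain ⟨a, ha0, ha1, ha2⟩ := ENNReal.lt_iff_exists_real_btwn.1 hε
    have : 0 < a := by simpa using ha1
    exact ⟨min (a / 2) r, by positivity, (ENNReal.ofReal_le_ofReal (by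
      linarith [min_le_left (a / 2) r])).trans ha2.le, min_le_right _ _⟩
  set d := Module.finrank ℝ (E n)
  obtain ⟨η, hη, hηδ, hηd⟩ : ∃ η : ℝ, 0 < η ∧ η ≤ δ ∧ (r + η) ^ d < r ^ d + δ ^ d := by
    have c : Tendsto (fun η : ℝ => (r + η) ^ d) (𝓝[>] 0) (𝓝 (r ^ d)) := by
      have : Continuous fun η : ℝ => (r + η) ^ d := by fun_prop
      simpa using (this.tendsto 0).mono_left nhdsWithin_le_nhds
    obtain ⟨η, h1, h2⟩ := ((c.eventually_lt_const (show r ^ d < r ^ d + δ ^ d by
      linarith [pow_pos hδ d])).and (Ioc_mem_nhdsGT hδ)).exists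
    exact ⟨η, h2.1, h2.2, h1⟩
  obtain ⟨j, hj⟩ := (h.eventually_lt_const (show 0 < ENNReal.ofReal η by simpa)).exists
  have hb : ∀ i, φ j ≤ i → iter u A i ⊆ closedBall 0 (r + η) := by
    intro i hi
    induction i, hi using Nat.le_induction with
    | base =>
      intro x hx
      obtain ⟨y, hy, hxy⟩ := exists_edist_lt_of_hausdorffEDist_lt hx hj
      rw [edist_lt_ofReal] at hxy
      rw [mem_closedBall] at hy ⊢
      linarith [dist_triangle x y 0]
    | succ i _ ih => exact S_ball (hu i) (by positivity) ih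
  filter_upwards [eventually_ge_atTop (φ j)] with i hi
  refine le_trans (hausdorffEDist_le_of_mem_edist ?_ ?_) hδε
  · intro x hx
    have hx' := mem_closedBall_zero_iff.1 (hb i hi hx)
    refine ⟨(r / (r + η)) • x, ?_, ?_⟩
    · rw [mem_closedBall_zero_iff, norm_smul, Real.norm_of_nonneg (by positivity),
        div_mul_eq_mul_div, div_le_iff₀ (by positivity)]
      gcongr
    · rw [edist_le_ofReal (by positivity), dist_eq_norm]
      have : x - (r / (r + η)) • x = (η / (r + η)) • x := by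
        nth_rewrite 1 [← one_smul ℝ x]
        rw [← sub_smul]; congr 1; field_simp; ring
      rw [this, norm_smul, Real.norm_of_nonneg (by positivity), div_mul_eq_mul_div,
        div_le_iff₀ (by positivity)]
      nlinarith
  · intro x hx
    have hx' := mem_closedBall_zero_iff.1 hx
    by_contra hcon
    push Not at hcon
    set z := (1 - δ / r) • x
    have hz : ‖z‖ ≤ r - δ := by
      rw [norm_smul, Real.norm_of_nonneg (by rw [sub_nonneg, div_le_one hr0]; exact hδr)]
      calc _ ≤ (1 - δ / r) * r := by gcongr; rw [sub_nonneg, div_le_one hr0]; exact hδr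
        _ = r - δ := by field_simp
    have hxz : dist x z ≤ δ := by
      have : x - z = (δ / r) • x := by simp [z, sub_smul]
      rw [dist_eq_norm, this, norm_smul, Real.norm_of_nonneg (by positivity), div_mul_eq_mul_div,
        div_le_iff₀ hr0]
      gcongr
    have s1 : iter u A i ⊆ closedBall 0 (r + η) \ ball z δ := fun y hy => ⟨hb i hi hy, fun hyz => by
      have := hcon y hy
      rw [← not_le, edist_le_ofReal (by positivity)] at this
      rw [mem_ball'] at hyz
      exact this (by linarith [dist_triangle x z y])⟩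
    have s2 : closedBall 0 (r + η) ∩ ball z δ = ball z δ := inter_eq_right.2 fun y hy => by
      rw [mem_closedBall_zero_iff]
      rw [mem_ball, dist_eq_norm] at hy
      linarith [norm_sub_norm_le y z]
    obtain ⟨B, hB, -, hv⟩ := vol_iter hu hA.measurableSet i
    have key := measure_sdiff_add_inter (μ := volume) (closedBall (0 : E n) (r + η))
      (measurableSet_ball (x := z) (ε := δ))
    have k2 : volume (closedBall (0 : E n) r) + volume (ball z δ) ≤
        volume (closedBall (0 : E n) (r + η)) := by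
      rw [← key, s2, hr]
      exact add_le_add (hv.trans (measure_mono (hB.trans s1))) le_rfl
    rw [Measure.addHaar_closedBall _ _ hr0.le, Measure.addHaar_ball _ _ hδ.le,
      Measure.addHaar_closedBall _ _ (by positivity), ← add_mul,
      ENNReal.mul_le_mul_iff_left (measure_ball_pos _ _ one_pos).ne' measure_ball_lt_top.ne,
      ← ENNReal.ofReal_add (by positivity) (by positivity),
      ENNReal.ofReal_le_ofReal_iff (by positivity)] at k2
    exact absurd hηd (not_lt.2 k2)

end Pool.Agent.Results.MP_c699aa_gt.Full
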